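import Pool.Agent.Lib.MP_6bc78b_nt.MS.P5.HM.Zdu
import Pool.Agent.Lib.MP_6bc78b_nt.MS.P5.HM.Hmc

/-! Project LW (MP_6bc78b_nt): zeros of zeta in short windows under RH. Definitions.
`T` is the parameter of the block, `t` the centre of the window (`T/2 ≤ t ≤ 4T`), `H` its width
(`T^a0 ≤ H ≤ T^(1-a0)`). -/

set_option autoImplicit false

open Complex Filter Topology MeasureTheory ArithmeticFunction

namespace Pool.Agent.Lib.MP_6bc78b_nt.LW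

open Pool.Agent.Lib.MP_6bc78b_nt
open Pool.Agent.Lib.MP_6bc78b_nt.MS Pool.Agent.Lib.MP_6bc78b_nt.MS.P1
open Pool.Agent.Lib.MP_6bc78b_nt.MS.P5 Pool.Agent.Lib.MP_6bc78b_nt.MS.P5.HM

/-- The local weight; `WL t H (1/2 + i y) = exp (-(y - t)^2 / H^2)`. -/
noncomputable def WL (t H : ℝ) (s : ℂ) : ℂ :=
  Complex.exp ((s - 1 / 2 - t * I) ^ 2 / (H : ℂ) ^ 2)

/-- The real weight. -/
noncomputable def wl (t H y : ℝ) : ℝ := Real.exp (-(y - t) ^ 2 / H ^ 2)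

/-- The number of zeros, weighted by `WL t H`, is `~ cL H * log t`. -/
noncomputable def cL (H : ℝ) : ℝ := H / (2 * Real.sqrt Real.pi)

/-- Weighted sum over the zeros with ordinates in `(t/2, 2t)`, with multiplicity. -/
noncomputable def ZL (t H : ℝ) (F : ℂ → ℂ) : ℂ :=
  ∑ᶠ γ ∈ zset t, (mz γ : ℂ) * WL t H (1 / 2 + γ * I) * F (1 / 2 + γ * I)

/-- The near-diagonal pairs: `1 ≤ m, n ≤ N`, `m ≠ n`, `H |log (m/n)| ≤ log T`. -/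
noncomputable def prs (N : ℕ) (T H : ℝ) : Finset (ℕ × ℕ) := by
  classical
  exact (Finset.Icc 1 N ×ˢ Finset.Icc 1 N).filter
    (fun p => p.1 ≠ p.2 ∧ H * |Real.log p.1 - Real.log p.2| ≤ Real.log T)

/-- The near-diagonal sum
`∑ a(m) b(n) (mn)^(-1/2) (m/n)^(-it) exp (-(H log (m/n))^2/4)` over the pairs in `prs N T H`. -/
noncomputable def NB (N : ℕ) (T H : ℝ) (a b : ℕ → ℝ) (t : ℝ) : ℂ :=
  ∑ p ∈ prs N T H,
    ((a p.1 * b p.2 * Real.exp (-(H * (Real.log p.1 - Real.log p.2)) ^ 2 / 4) /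
      Real.sqrt (p.1 * p.2) : ℝ) : ℂ) *
      Complex.exp (-((t * (Real.log p.1 - Real.log p.2) : ℝ) * I))

/-- The range of the parameters. -/
def Rng (a0 T t H : ℝ) : Prop :=
  T / 2 ≤ t ∧ t ≤ 4 * T ∧ T ^ a0 ≤ H ∧ H ≤ T ^ (1 - a0)

/-- The zeros used in the window sums of the block `T`: ordinates in `(T/2, 2T)` and `(t/2, 2t)`. -/
def zst (T t : ℝ) : Set ℝ := zset T ∩ zset t

/-- Number of zeros of Hardy's `Z` in `(t, t+h]`, with multiplicity. -/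
noncomputable def NW (t h : ℝ) : ℝ :=
  ∑ᶠ γ ∈ {γ : ℝ | t < γ ∧ γ ≤ t + h ∧ hardyZ γ = 0}, (zeroMult γ : ℝ)

/-- Number of simple zeros of `Z` in `(t, t+h]`. -/
noncomputable def NWs (t h : ℝ) : ℝ :=
  ({γ : ℝ | t < γ ∧ γ ≤ t + h ∧ zeroMult γ = 1}.ncard : ℝ)

/-- `∑ m(γ)^2` over the distinct zeros of `Z` in `(t, t+h]`. -/
noncomputable def NW2 (t h : ℝ) : ℝ :=
  ∑ᶠ γ ∈ {γ : ℝ | t < γ ∧ γ ≤ t + h ∧ hardyZ γ = 0}, (zeroMult γ : ℝ) ^ 2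

/-- `∑ m(γ) max(m(γ) - c, 0)^(2k)` over the distinct zeros of `Z` in `(t, t+h]`. -/
noncomputable def NWk (k : ℕ) (c t h : ℝ) : ℝ :=
  ∑ᶠ γ ∈ {γ : ℝ | t < γ ∧ γ ≤ t + h ∧ hardyZ γ = 0},
    (zeroMult γ : ℝ) * max ((zeroMult γ : ℝ) - c) 0 ^ (2 * k)

end Pool.Agent.Lib.MP_6bc78b_nt.LW
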