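import Pool.Agent.Lib.MP_6bc78b_nt.LW.Defs

/-! Project LW: the statements of the modules (paper: finding 3829). -/

set_option autoImplicit false

open Complex Filter Topology MeasureTheory ArithmeticFunction

namespace Pool.Agent.Lib.MP_6bc78b_nt.LW

open Pool.Agent.Lib.MP_6bc78b_nt
open Pool.Agent.Lib.MP_6bc78b_nt.MS Pool.Agent.Lib.MP_6bc78b_nt.MS.P1
open Pool.Agent.Lib.MP_6bc78b_nt.MS.P5 Pool.Agent.Lib.MP_6bc78b_nt.MS.P5.HM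

/-! ## WIN: the analytic tools in a window (from the `MS` versions: the quotient
`WL t H / WW t = exp ((s-1/2-it)^2 (1/H^2 - 1/DD t^2))` is bounded by `e` in the strip, so it can
be absorbed into the test function, with `T := t`) -/

/-- GAUL: symmetry, size, exact integral, any `H > 0`. -/
def GauLStatement : Prop :=
  (∀ (t H : ℝ) (s : ℂ), WL t H (1 - (starRingEnd ℂ) s) = (starRingEnd ℂ) (WL t H s)) ∧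
  (∀ t H c y : ℝ, ‖WL t H (c + y * I)‖ = Real.exp (((c - 1 / 2) ^ 2 - (y - t) ^ 2) / H ^ 2)) ∧
  (∀ t H y : ℝ, WL t H (1 / 2 + y * I) = (wl t H y : ℂ)) ∧
  (∀ t H c r : ℝ, 0 < H → 0 < r →
    Integrable (fun y : ℝ => WL t H (c + y * I) * (r : ℂ) ^ (-(c + y * I : ℂ))) ∧
    VI c (fun s => WL t H s * (r : ℂ) ^ (-s)) =
      (cL H : ℂ) * Complex.exp (-(1 / 2 + t * I) * Real.log r - H ^ 2 * (Real.log r) ^ 2 / 4))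

/-- TAILL -/
def TailLStatement : Prop := ∀ A c a0 : ℝ, 0 ≤ c → c ≤ 8 → 0 < a0 → a0 < 1 / 2 →
  ∃ T0 : ℝ, ∀ T t H : ℝ, T0 ≤ T → Rng a0 T t H → ∀ g : ℂ → ℂ,
  AEStronglyMeasurable (fun y : ℝ => g (c + y * I)) volume →
  (∀ y : ℝ, ‖g (c + y * I)‖ ≤ T ^ A * (1 + |y|) ^ A) →
    Integrable (fun y : ℝ => g (c + y * I) * WL t H (c + y * I)) ∧
    ‖VI c (fun s => g s * WL t H s) - VF c t (fun s => g s * WL t H s)‖ ≤ 1 / T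

/-- MOVL -/
def MovLStatement : Prop := ∀ A c a0 : ℝ, 1 < c → c < 3 / 2 → 0 < a0 → a0 < 1 / 2 →
  ∃ T0 : ℝ, ∀ T t H : ℝ, T0 ≤ T → Rng a0 T t H → ∀ F : ℂ → ℂ,
  DifferentiableOn ℂ F (SB t) → (∀ s ∈ SB t, ‖F s‖ ≤ T ^ A) →
    ‖VF c t (fun s => om s * F s * WL t H s) -
      VF (1 / 2) t (fun s => om s * F s * WL t H s)‖ ≤ 1

/-- ZSFL (needs RH). -/
def ZsfLStatement : Prop := ∀ A c a0 : ℝ, 1 < c → c < 3 / 2 → 0 < a0 → a0 < 1 / 2 →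
  ∃ T0 : ℝ, ∀ T t H : ℝ, T0 ≤ T → Rng a0 T t H → ∀ F : ℂ → ℂ,
  DifferentiableOn ℂ F (SB t) → (∀ s ∈ SB t, ‖F s‖ ≤ T ^ A) →
    ‖ZL t H F - (VF c t (fun s => logDeriv riemannZeta s * F s * WL t H s) +
      (starRingEnd ℂ) (VF c t (fun s => (om s + logDeriv riemannZeta s) *
        (starRingEnd ℂ) (F (1 - (starRingEnd ℂ) s)) * WL t H s)))‖ ≤ 1

/-! ## EDGL: right line = diagonal + near-diagonal -/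

/-- EDGL (from GAUL, SWAP): `β` supported on `[1, X]`. -/
def EdgLStatement : Prop := ∀ A c a0 : ℝ, 1 < c → c < 3 / 2 → 0 < a0 → a0 < 1 / 2 →
  ∃ T0 : ℝ, ∀ T t H : ℝ, T0 ≤ T → Rng a0 T t H → ∀ (X : ℕ) (α : ArithmeticFunction ℝ) (β : ℕ → ℝ),
  (X : ℝ) ≤ T → ASum c α → AN c α ≤ T ^ A → (∀ k, |β k| ≤ T ^ A) → (∀ k, X < k → β k = 0) →
    ‖VI c (fun s => LS α s *
        (∑ k ∈ Finset.Icc 1 X, (β k : ℂ) * (k : ℂ) ^ (-(1 - s))) * WL t H s) -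
      (cL H : ℂ) * (((∑ k ∈ Finset.Icc 1 X, α k * β k / k : ℝ) : ℂ) +
        NB (2 * X) T H α β t)‖ ≤ 1 / T

/-- EDG0L: no constant term. -/
def Edg0LStatement : Prop := ∀ A c a0 : ℝ, 1 < c → c < 3 / 2 → 0 < a0 → a0 < 1 / 2 →
  ∃ T0 : ℝ, ∀ T t H : ℝ, T0 ≤ T → Rng a0 T t H → ∀ α : ArithmeticFunction ℝ,
  α 1 = 0 → ASum c α → AN c α ≤ T ^ A → ‖VI c (fun s => LS α s * WL t H s)‖ ≤ 1 / T

/-- MVL: mean value on the critical line, diagonal + near-diagonal (exact up to `1/T`);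
`d` real, supported on `[1, X]`. -/
def MvLStatement : Prop := ∀ A a0 : ℝ, 0 < a0 → a0 < 1 / 2 →
  ∃ T0 : ℝ, ∀ T t H : ℝ, T0 ≤ T → Rng a0 T t H → ∀ (X : ℕ) (d : ArithmeticFunction ℝ),
  (X : ℝ) ≤ T → (∀ k, |d k| ≤ T ^ A) → (∀ k, X < k → d k = 0) →
    (1 / (2 * Real.pi)) * ∫ y : ℝ, ‖PD d X (1 / 2 + y * I)‖ ^ 2 * wl t H y ≤
      cL H * (∑ n ∈ Finset.Icc 1 X, d n ^ 2 / (n : ℝ) + ‖NB (2 * X) T H d d t‖) + 1 / T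

/-! ## Sums over the zeros in a window -/

/-- ZDL (local ZDU): `d ≥ 0` supported on `[1, X]`. -/
def ZdLStatement : Prop := ∀ a0 : ℝ, 0 < a0 → a0 < 1 / 2 →
  ∃ T0 : ℝ, ∀ T t H : ℝ, T0 ≤ T → Rng a0 T t H → ∀ (X : ℕ) (d : ArithmeticFunction ℝ),
  (X : ℝ) ≤ T → (∀ n, 0 ≤ d n ∧ d n ≤ T) → (∀ n, X < n → d n = 0) →
    ∑ᶠ γ ∈ zset t, (mz γ : ℝ) * wl t H γ * ‖PD d X (1 / 2 + γ * I)‖ ^ 2 ≤
      cL H * ((Real.log T + 2) * (∑ n ∈ Finset.Icc 1 X, d n ^ 2 / (n : ℝ) +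
          ‖NB (2 * X) T H d d t‖) + 2 * ‖NB (2 * X) T H (La * d : ArithmeticFunction ℝ) d t‖) + 10

/-- LINL: the linear sum, `B = BB lam T`, `X = ⌊T^lam⌋`. -/
def LinLStatement : Prop := ∀ a0 lam : ℝ, 0 < a0 → a0 < 1 / 2 → 0 < lam → lam < 1 →
  ∃ T0 : ℝ, ∀ T t H : ℝ, T0 ≤ T → Rng a0 T t H →
    ∑ᶠ γ ∈ zset t, (mz γ : ℝ) * wl t H γ * (-(BB lam T (1 / 2 + γ * I)).re) ≤
      cL H * (∑ k ∈ Finset.Icc 1 ⌊T ^ lam⌋₊, La k * bb lam T k / k +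
        ‖NB (2 * ⌊T ^ lam⌋₊) T H La (bb lam T) t‖) +
      cL H * (1 + ‖NB (2 * ⌊T ^ lam⌋₊) T H (bb lam T) (bb lam T) t‖)

/-- CNL: the weighted number of zeros, for every `t`. -/
def CnLStatement : Prop := ∀ a0 ε : ℝ, 0 < a0 → a0 < 1 / 2 → 0 < ε →
  ∃ T0 : ℝ, ∀ T t H : ℝ, T0 ≤ T → Rng a0 T t H →
    (1 - ε) * (cL H * Real.log T) ≤ ∑ᶠ γ ∈ zset t, (mz γ : ℝ) * wl t H γ ∧
    ∑ᶠ γ ∈ zset t, (mz γ : ℝ) * wl t H γ ≤ (1 + ε) * (cL H * Real.log T)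

/-- RSTL: the zeros far from `t` are negligible (`b` polynomially bounded). -/
def RstLStatement : Prop := ∀ A a0 : ℝ, 0 < a0 → a0 < 1 / 2 →
  ∃ T0 : ℝ, ∀ T t H : ℝ, T0 ≤ T → Rng a0 T t H → ∀ b : ℝ → ℝ,
  (∀ γ ∈ zset t, |b γ| ≤ T ^ A) →
    ∑ᶠ γ ∈ {γ : ℝ | γ ∈ zset t ∧ T / 10 ≤ |γ - t|}, (mz γ : ℝ) * wl t H γ * |b γ| ≤ 1 / T

/-! ## The variance lemma -/

/-- CNT4: the quadruples. -/
def Cnt4Statement : Prop := ∀ a0 ε : ℝ, 0 < a0 → a0 < 1 / 2 → 0 < ε →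
  ∃ T0 : ℝ, ∀ (T H : ℝ) (N : ℕ), T0 ≤ T → T ^ a0 ≤ H → H ≤ T → (N : ℝ) ≤ 2 * T →
    ∑ q ∈ ((prs N T H) ×ˢ (prs N T H)).filter (fun q => T * |(Real.log q.1.1 - Real.log q.1.2) -
        (Real.log q.2.1 - Real.log q.2.2)| ≤ Real.log T),
      1 / (Real.sqrt (q.1.1 * q.1.2) * Real.sqrt (q.2.1 * q.2.2)) ≤
    T ^ ε * (1 / H) * (1 + (N : ℝ) ^ 2 / T)

/-- VARL: the variance. -/
def VarLStatement : Prop := ∀ a0 ε : ℝ, 0 < a0 → a0 < 1 / 2 → 0 < ε →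
  ∃ T0 : ℝ, ∀ (T H M : ℝ) (N : ℕ) (a b : ℕ → ℝ), T0 ≤ T → T ^ a0 ≤ H → H ≤ T →
    (N : ℝ) ≤ 2 * T → 0 ≤ M → (∀ n, n ≤ N → |a n| ≤ M) → (∀ n, n ≤ N → |b n| ≤ M) →
    ∫ t in (T / 2)..(4 * T), ‖NB N T H a b t‖ ^ 2 ≤
      M ^ 4 * T ^ (1 + ε) * (1 / H) * (1 + (N : ℝ) ^ 2 / T)

/-- NB0: short polynomials have no near-diagonal pairs. -/
def Nb0Statement : Prop := ∀ a0 : ℝ, 0 < a0 → ∃ T0 : ℝ, ∀ (T H : ℝ) (N : ℕ),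
  T0 ≤ T → (N : ℝ) * T ^ a0 ≤ H → prs N T H = ∅

/-! ## Moments and the weighted inequalities -/

/-- The error of the `k`-th moment. -/
noncomputable def Ek (k : ℕ) (lam T H t : ℝ) : ℝ :=
  ‖NB (2 * ⌊T ^ (k * lam)⌋₊) T H ((bp lam T) ^ k : ArithmeticFunction ℝ)
    ((bp lam T) ^ k : ArithmeticFunction ℝ) t‖ +
  ‖NB (2 * ⌊T ^ (k * lam)⌋₊) T H (La * (bp lam T) ^ k : ArithmeticFunction ℝ)
    ((bp lam T) ^ k : ArithmeticFunction ℝ) t‖ +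
  ‖NB (2 * ⌊T ^ lam⌋₊) T H (bq lam T) (bq lam T) t‖ +
  ‖NB (2 * ⌊T ^ lam⌋₊) T H (La * bq lam T : ArithmeticFunction ℝ) (bq lam T) t‖

/-- The error of the linear sum. -/
noncomputable def E1 (lam T H t : ℝ) : ℝ :=
  ‖NB (2 * ⌊T ^ lam⌋₊) T H La (bb lam T) t‖ + ‖NB (2 * ⌊T ^ lam⌋₊) T H (bb lam T) (bb lam T) t‖

/-- MML: the moments of `B` over the zeros in a window. -/
def MmLStatement : Prop := ∀ (a0 lam η : ℝ) (k : ℕ), 0 < a0 → a0 < 1 / 2 → 0 < lam →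
  1 ≤ k → (k : ℝ) * lam < 1 → 0 < η → ∃ C T0 : ℝ, 0 < C ∧ ∀ T t H : ℝ, T0 ≤ T → Rng a0 T t H →
    ∑ᶠ γ ∈ zset t, (mz γ : ℝ) * wl t H γ * ‖BB lam T (1 / 2 + γ * I)‖ ^ (2 * k) ≤
      ((k.factorial : ℝ) / 12 ^ k + η) * (cL H * Real.log T) +
        C * (cL H * Real.log T) * Ek k lam T H t

/-- HWL: the two weighted inequalities; `9T/10 ≤ t ≤ 8T/5`. -/
def HwLStatement : Prop := ∀ a0 η : ℝ, 0 < a0 → a0 < 1 / 2 → 0 < η →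
  (∀ lam : ℝ, 0 < lam → lam < 1 → ∃ T0 : ℝ, ∀ T t H : ℝ, T0 ≤ T →
    9 * T / 10 ≤ t → t ≤ 8 * T / 5 → T ^ a0 ≤ H → H ≤ T ^ (1 - a0) →
      ∑ᶠ γ ∈ zst T t, (mz γ : ℝ) ^ 2 * wl t H γ ≤
        (cL H * Real.log T) * (1 / lam + lam / 3 + η + E1 lam T H t)) ∧
  (∀ (k : ℕ) (lam c : ℝ), 1 ≤ k → 0 < lam → (k : ℝ) * lam < 1 → 1 / lam < c →
    ∃ C T0 : ℝ, 0 < C ∧ ∀ T t H : ℝ, T0 ≤ T →
    9 * T / 10 ≤ t → t ≤ 8 * T / 5 → T ^ a0 ≤ H → H ≤ T ^ (1 - a0) →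
      ∑ᶠ γ ∈ zst T t, ((mz γ : ℝ) * max ((mz γ : ℝ) - c) 0 ^ (2 * k)) * wl t H γ ≤
        (cL H * Real.log T) * ((k.factorial : ℝ) / 3 ^ k + η + C * Ek k lam T H t))

/-! ## From the weight to sharp windows -/

/-- SHP: upper bounds. `E` is any nonnegative continuous function. -/
def ShpStatement : Prop := ∀ a0 ε κ : ℝ, 0 < a0 → a0 < 1 / 4 → 0 < ε → 0 ≤ κ →
  ∃ T0 : ℝ, ∀ (T H : ℝ), T0 ≤ T → T ^ (2 * a0) ≤ H → H ≤ T ^ (1 - a0) →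
    ∀ (b E : ℝ → ℝ), (∀ γ, 0 ≤ b γ) → Continuous E → (∀ u, 0 ≤ E u) →
    (∀ t : ℝ, 9 * T / 10 ≤ t → t ≤ 8 * T / 5 →
      ∑ᶠ γ ∈ zst T t, b γ * wl t (H * T ^ (-a0)) γ ≤
        (cL (H * T ^ (-a0)) * Real.log T) * (κ + E t)) →
    ∀ u : ℝ, T ≤ u → u ≤ 3 * T / 2 →
      ∑ᶠ γ ∈ {γ : ℝ | u < γ ∧ γ ≤ u + H ∧ riemannZeta (1 / 2 + γ * I) = 0}, b γ ≤
        (H / (2 * Real.pi) * Real.log T) * (κ + ε + (2 / H) * ∫ v in (u - H)..(u + 2 * H), E v)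

/-- CNW: the number of zeros in every window. -/
def CnwStatement : Prop := ∀ a0 ε : ℝ, 0 < a0 → a0 < 1 / 4 → 0 < ε →
  ∃ T0 : ℝ, ∀ (T H u : ℝ), T0 ≤ T → T ^ (2 * a0) ≤ H → H ≤ T ^ (1 - a0) →
    T ≤ u → u ≤ 3 * T / 2 →
      (1 - ε) * (H / (2 * Real.pi) * Real.log T) ≤ NW u H ∧
      NW u H ≤ (1 + ε) * (H / (2 * Real.pi) * Real.log T)

/-- EXC: the exceptional set (Fubini and Chebyshev). -/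
def ExcStatement : Prop := ∀ (T H V η : ℝ) (E : ℝ → ℝ), 0 < η → 1 ≤ H → 3 * H ≤ T / 10 →
  Continuous E → (∀ u, 0 ≤ E u) → 0 ≤ V → ∫ u in (T / 2)..(4 * T), E u ^ 2 ≤ V →
    volume {u : ℝ | T ≤ u ∧ u ≤ 3 * T / 2 ∧ η ≤ (2 / H) * ∫ v in (u - H)..(u + 2 * H), E v} ≤
      ENNReal.ofReal (36 * V / η ^ 2)

/-! ## The final theorem -/

/-- FIN: zeros in short windows. -/
def FinalStatement : Prop := ∀ a ε : ℝ, 0 < a → a < 1 → 0 < ε →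
  -- almost all windows
  (∃ δ T0 : ℝ, 0 < δ ∧ ∀ T : ℝ, T0 ≤ T → ∃ S : Set ℝ, MeasurableSet S ∧
    volume S ≤ ENNReal.ofReal (T ^ (1 - δ)) ∧ ∀ t : ℝ, T ≤ t → t ≤ 2 * T → t ∉ S →
      NW2 t (T ^ a) ≤ (2 / (1 + a) + (1 + a) / 6 + ε) * NW t (T ^ a)) ∧
  (∀ k : ℕ, 1 ≤ k → ∃ δ T0 : ℝ, 0 < δ ∧ ∀ T : ℝ, T0 ≤ T → ∃ S : Set ℝ, MeasurableSet S ∧
    volume S ≤ ENNReal.ofReal (T ^ (1 - δ)) ∧ ∀ t : ℝ, T ≤ t → t ≤ 2 * T → t ∉ S →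
      NWk k (2 * k / (1 + a) + ε) t (T ^ a) ≤ ((k.factorial : ℝ) / 3 ^ k + ε) * NW t (T ^ a)) ∧
  -- all windows
  (∃ T0 : ℝ, ∀ T : ℝ, T0 ≤ T → ∀ t : ℝ, T ≤ t → t ≤ 2 * T →
      NW2 t (T ^ a) ≤ (1 / a + a / 3 + ε) * NW t (T ^ a)) ∧
  (∀ k : ℕ, 1 ≤ k → ∃ T0 : ℝ, ∀ T : ℝ, T0 ≤ T → ∀ t : ℝ, T ≤ t → t ≤ 2 * T →
      NWk k (k / a + ε) t (T ^ a) ≤ ((k.factorial : ℝ) / 3 ^ k + ε) * NW t (T ^ a))

end Pool.Agent.Lib.MP_6bc78b_nt.LW
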